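import Pool.Agent.H94.M4.Targets

/-!
Row TRK (MP_ee74d2_an): caps of the cone with independent null covectors are transversal.
-/

set_option autoImplicit false

namespace Pool.Agent.H69.M4.TRK

open MeasureTheory Set
open Pool.Agent.H94.T3 (Gam)
open Pool.Agent.H94.M4
open Pool.Agent.H22.G4 (nv Ind)
open Pool.Agent.H83.G (Z)
open scoped ENNReal NNReal RealInnerProductSpace

abbrev EE (d : ℕ) := EuclideanSpace ℝ (Fin d)

private lemma nsq {m : ℕ} (ξ : EE (m + 1)) :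
    ‖ξ‖ ^ 2 = ‖Pool.Agent.H83.LS.pr ξ‖ ^ 2 + (ξ (Fin.last m)) ^ 2 := by
  rw [EuclideanSpace.norm_sq_eq, EuclideanSpace.norm_sq_eq, Fin.sum_univ_castSucc]
  simp [Pool.Agent.H83.LS.pr]

private lemma cont_pr {m : ℕ} : Continuous (fun ξ : EE (m + 1) => Pool.Agent.H83.LS.pr ξ) := by
  unfold Pool.Agent.H83.LS.pr
  fun_prop

private lemma pr_sum {m n : ℕ} (κ : Fin n → ℝ) (ξ : Fin n → EE (m + 1)) :
    Pool.Agent.H83.LS.pr (∑ j, κ j • ξ j) = ∑ j, κ j • Pool.Agent.H83.LS.pr (ξ j) := by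
  ext i
  simp [Pool.Agent.H83.LS.pr]

private lemma key {m j : ℕ} {c₀ : ℝ} (hc : 0 < c₀) (μ : Fin j → ℝ) (η : Fin j → EE m)
    (h0 : ∑ i, μ i = 0) (h1 : ∑ i, μ i • η i = 0) (h2 : ∑ i, μ i * ‖η i‖ ^ 2 = 0)
    (hI : Ind c₀ η) : ∀ i, μ i = 0 := by
  have h3 : ∑ i, μ i • nv (η i) = (0 : Z m) := by
    refine Prod.ext ?_ (Prod.ext ?_ ?_)
    · rw [Prod.fst_sum]
      simp only [nv, Prod.smul_fst, smul_eq_mul, mul_one]
      exact h0
    · rw [Prod.snd_sum, Prod.fst_sum]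
      simp only [nv, Prod.smul_snd, Prod.smul_fst]
      exact h1
    · rw [Prod.snd_sum, Prod.snd_sum]
      simp only [nv, Prod.smul_snd, smul_eq_mul]
      exact h2
  have h4 := hI μ
  rw [h3, norm_zero] at h4
  have h5 : 0 ≤ ∑ i, |μ i| := Finset.sum_nonneg fun i _ => abs_nonneg _
  have h6 : ∑ i, |μ i| = 0 := by
    by_contra hne
    have h7 : 0 < ∑ i, |μ i| := lt_of_le_of_ne h5 (Ne.symm hne)
    have := mul_pos hc h7
    linarith
  intro i
  have h7 := (Finset.sum_eq_zero_iff_of_nonneg fun i _ => abs_nonneg _).1 h6 i (Finset.mem_univ i)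
  exact abs_eq_zero.1 h7

theorem pf_TRK : T_TRK := by
  intro m n ρ c₀ c hρ hc0 hc
  refine ⟨fun j => ?_, fun j h0 => ?_, ?_⟩
  · -- compactness
    have hG : Gam (c j) ρ = {ξ : EE (m + 1) | 1 / 4 ≤ ‖ξ‖ + ξ (Fin.last m)} ∩
        ({ξ : EE (m + 1) | ‖ξ‖ + ξ (Fin.last m) ≤ 8} ∩
        {ξ : EE (m + 1) | ‖Pool.Agent.H83.LS.pr ξ - (‖ξ‖ + ξ (Fin.last m)) • c j‖ ≤
          ρ * (‖ξ‖ + ξ (Fin.last m))}) := by
      ext ξ
      simp only [Gam, mem_setOf_eq, mem_inter_iff]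
      refine and_congr_right fun h1 => and_congr_right fun _ => ?_
      set a := ‖ξ‖ + ξ (Fin.last m) with ha
      have hap : 0 < a := lt_of_lt_of_le (by norm_num) h1
      have : Pool.Agent.H83.LS.pr ξ - a • c j = a • (a⁻¹ • Pool.Agent.H83.LS.pr ξ - c j) := by
        rw [smul_sub, smul_smul, mul_inv_cancel₀ hap.ne', one_smul]
      rw [this, norm_smul, Real.norm_eq_abs, abs_of_pos hap, mul_comm ρ]
      exact (mul_le_mul_iff_right₀ hap).symm
    have hca : Continuous (fun ξ : EE (m + 1) => ‖ξ‖ + ξ (Fin.last m)) := by fun_prop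
    have hcl : IsClosed (Gam (c j) ρ) := by
      rw [hG]
      refine (isClosed_le continuous_const hca).inter ((isClosed_le hca continuous_const).inter
        (isClosed_le ?_ (continuous_const.mul hca)))
      exact (cont_pr.sub (hca.smul continuous_const)).norm
    refine (isCompact_closedBall (0 : EE (m + 1)) (4 + 2 * (8 * (‖c j‖ + ρ)) ^ 2)).of_isClosed_subset
      hcl ?_
    intro ξ hξ
    rw [hG] at hξ
    obtain ⟨h1, h2, h3⟩ := hξ
    simp only [mem_setOf_eq] at h1 h2 h3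
    set a := ‖ξ‖ + ξ (Fin.last m) with ha
    have hap : 0 < a := lt_of_lt_of_le (by norm_num) h1
    have hB : ‖Pool.Agent.H83.LS.pr ξ‖ ≤ 8 * (‖c j‖ + ρ) := by
      have h4 : ‖Pool.Agent.H83.LS.pr ξ‖ ≤ ‖Pool.Agent.H83.LS.pr ξ - a • c j‖ + ‖a • c j‖ := by
        simpa using norm_add_le (Pool.Agent.H83.LS.pr ξ - a • c j) (a • c j)
      rw [norm_smul, Real.norm_eq_abs, abs_of_pos hap] at h4
      have h5 : a * ‖c j‖ ≤ 8 * ‖c j‖ := mul_le_mul_of_nonneg_right h2 (norm_nonneg _)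
      have h6 : ρ * a ≤ ρ * 8 := mul_le_mul_of_nonneg_left h2 hρ
      linarith
    have hn := nsq ξ
    have h7 : (‖ξ‖ - ξ (Fin.last m)) * a = ‖Pool.Agent.H83.LS.pr ξ‖ ^ 2 := by
      rw [ha]; linarith
    have h8 : ‖Pool.Agent.H83.LS.pr ξ‖ ^ 2 ≤ (8 * (‖c j‖ + ρ)) ^ 2 :=
      pow_le_pow_left₀ (norm_nonneg _) hB 2
    have h9 : ‖ξ‖ - ξ (Fin.last m) ≤ 4 * (8 * (‖c j‖ + ρ)) ^ 2 := by
      by_contra hlt
      push Not at hlt
      have h10 : 0 ≤ ‖ξ‖ - ξ (Fin.last m) := le_trans (by positivity) hlt.le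
      have h11 : (‖ξ‖ - ξ (Fin.last m)) * (1 / 4) ≤ (‖ξ‖ - ξ (Fin.last m)) * a :=
        mul_le_mul_of_nonneg_left h1 h10
      nlinarith
    rw [mem_closedBall_zero_iff]
    linarith
  · have := h0.1
    simp at this
    linarith
  · intro ξ hξ
    rw [Fintype.linearIndependent_iff]
    intro lam hlam
    have hf : ∑ j, lam j • (‖ξ j‖⁻¹ • ξ j) = 0 := by
      have := congrArg Prod.fst hlam
      simpa [Prod.fst_sum] using this
    have hs : ∑ j, lam j = 0 := by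
      have := congrArg Prod.snd hlam
      simpa [Prod.snd_sum] using this
    set a : Fin n → ℝ := fun j => ‖ξ j‖ + ξ j (Fin.last m) with ha
    have hap : ∀ j, 0 < a j := fun j => lt_of_lt_of_le (by norm_num) (hξ j).1
    have hnp : ∀ j, 0 < ‖ξ j‖ := by
      intro j
      by_contra h
      have h1 : ‖ξ j‖ = 0 := le_antisymm (not_lt.1 h) (norm_nonneg _)
      have h2 := hap j
      rw [norm_eq_zero] at h1
      simp [ha, h1] at h2
    set κ : Fin n → ℝ := fun j => lam j * ‖ξ j‖⁻¹ with hκ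
    have hf' : ∑ j, κ j • ξ j = 0 := by
      rw [← hf]; exact Finset.sum_congr rfl fun j _ => by rw [hκ, smul_smul]
    have hs' : ∑ j, κ j * ‖ξ j‖ = 0 := by
      rw [← hs]
      exact Finset.sum_congr rfl fun j _ => by rw [hκ]; simp [mul_assoc, (hnp j).ne']
    have hpr : ∑ j, κ j • Pool.Agent.H83.LS.pr (ξ j) = 0 := by
      rw [← pr_sum, hf']; ext i; simp [Pool.Agent.H83.LS.pr]
    have hla : ∑ j, κ j * ξ j (Fin.last m) = 0 := by
      have := congrArg (fun w : EE (m + 1) => w (Fin.last m)) hf'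
      simpa using this
    set η : Fin n → EE m := fun j => (a j)⁻¹ • Pool.Agent.H83.LS.pr (ξ j) with hη
    have hk := key hc0 (fun j => κ j * a j) η ?_ ?_ ?_ ?_
    · intro j
      have h1 := hk j
      rcases mul_eq_zero.1 h1 with h2 | h2
      · rcases mul_eq_zero.1 h2 with h3 | h3
        · exact h3
        · exact absurd h3 (inv_ne_zero (hnp j).ne')
      · exact absurd h2 (hap j).ne'
    · have : ∑ j, κ j * a j = ∑ j, κ j * ‖ξ j‖ + ∑ j, κ j * ξ j (Fin.last m) := by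
        rw [← Finset.sum_add_distrib]
        exact Finset.sum_congr rfl fun j _ => by rw [ha]; ring
      rw [this, hs', hla, add_zero]
    · rw [← hpr]
      refine Finset.sum_congr rfl fun j _ => ?_
      rw [hη, smul_smul, mul_assoc, mul_inv_cancel₀ (hap j).ne', mul_one]
    · have : ∑ j, κ j * a j * ‖η j‖ ^ 2 = ∑ j, κ j * ‖ξ j‖ - ∑ j, κ j * ξ j (Fin.last m) := by
        rw [← Finset.sum_sub_distrib]
        refine Finset.sum_congr rfl fun j _ => ?_
        have hn := nsq (ξ j)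
        have h7 : (‖ξ j‖ - ξ j (Fin.last m)) * a j = ‖Pool.Agent.H83.LS.pr (ξ j)‖ ^ 2 := by
          rw [ha]; linarith
        have h8 : ‖η j‖ ^ 2 = ((a j)⁻¹) ^ 2 * ‖Pool.Agent.H83.LS.pr (ξ j)‖ ^ 2 := by
          rw [hη, norm_smul, mul_pow, Real.norm_eq_abs, sq_abs]
        rw [h8, ← h7]
        have := (hap j).ne'
        field_simp
      rw [this, hs', hla, sub_zero]
    · refine hc η fun i => ?_
      exact (hξ i).2.2

end Pool.Agent.H69.M4.TRK
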